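import Pool.Agent.X320.DS.Transfer
import Pool.Agent.Y123.ST.Jor2
import Pool.Agent.Y800.Diag

/-! Jordan's theorem as a law, over algebraically closed fields of characteristic zero. -/

set_option autoImplicit false

namespace Pool.Agent.X289.PA

open Polynomial Matrix

/-- Jordan's theorem over `ℂ` as a law. -/
theorem jordan_C (n : ℕ) : ∃ J : ℕ, 1 ≤ J ∧ ∀ (G : Type) [Group G] (M : G →* Matrix (Fin n) (Fin n) ℂ),
    (Set.range M).Finite → ∀ x y : G, M (x ^ J * y ^ J) = M (y ^ J * x ^ J) := by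
  obtain ⟨J, hJ⟩ := Pool.Agent.Y123.ST.Jor.jordan n
  refine ⟨J.factorial, Nat.factorial_pos _, fun G _ M hM x y => ?_⟩
  have hinv : ∀ g, M g * M g⁻¹ = 1 := fun g => by rw [← map_mul, mul_inv_cancel, map_one]
  obtain ⟨k, l, ⟨hk1, hkJ⟩, ⟨hl1, hlJ⟩, h⟩ := hJ (Set.range M) hM ⟨1, map_one M⟩
    (by rintro _ ⟨a, rfl⟩ _ ⟨b, rfl⟩; exact ⟨a * b, map_mul M a b⟩)
    (by
      rintro _ ⟨a, rfl⟩
      exact (Matrix.isUnit_iff_isUnit_det _).1 (IsUnit.of_mul_eq_one _ (hinv a)))
    (by
      rintro _ ⟨a, rfl⟩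
      exact ⟨a⁻¹, (Matrix.inv_eq_right_inv (hinv a)).symm⟩)
    (M x) ⟨x, rfl⟩ (M y) ⟨y, rfl⟩
  obtain ⟨a, ha⟩ := Nat.dvd_factorial (Nat.lt_of_lt_of_le Nat.zero_lt_one hk1) hkJ
  obtain ⟨b, hb⟩ := Nat.dvd_factorial (Nat.lt_of_lt_of_le Nat.zero_lt_one hl1) hlJ
  have hc : Commute (M x ^ k) (M y ^ l) := h
  have hc2 : Commute (M x ^ J.factorial) (M y ^ J.factorial) := by
    conv_lhs => rw [ha, pow_mul]
    conv_rhs => rw [hb, pow_mul]
    exact hc.pow_pow a b
  rw [map_mul, map_mul, map_pow, map_pow]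
  exact hc2

/-- a matrix of finite order has its characteristic polynomial over a subfield which contains the roots of unity -/
theorem charpoly_lift {E : Type} [Field E] [CharZero E] [IsAlgClosed E] {n : ℕ}
    (G : Matrix (Fin n) (Fin n) E) (N : ℕ) (hN : 0 < N) (hG : G ^ N = 1) :
    ∃ P : (algebraicClosure ℚ E)[X], G.charpoly = P.map (algebraMap (algebraicClosure ℚ E) E) := by
  obtain ⟨b, d, hbd⟩ := Pool.Agent.Y800.diag_of_pow_eq_one G N hN hG
  obtain ⟨h, hh⟩ := Pool.Agent.Y800.conj_of_basis G b d hbd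
  have hd : ∀ i, d i ^ N = 1 := by
    intro i
    have h1 : ∀ j : ℕ, (G ^ j).mulVec (b i) = d i ^ j • b i := by
      intro j
      induction j with
      | zero => rw [pow_zero, pow_zero, one_mulVec, one_smul]
      | succ j ih =>
        rw [pow_succ, ← Matrix.mulVec_mulVec, hbd, Matrix.mulVec_smul, ih, smul_smul, pow_succ, mul_comm]
    have h2 := h1 N
    rw [hG, one_mulVec] at h2
    have h3 : (d i ^ N - 1) • b i = 0 := by rw [sub_smul, one_smul, ← h2, sub_self]
    rcases smul_eq_zero.1 h3 with h4 | h4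
    · exact sub_eq_zero.1 h4
    · exact absurd h4 (b.ne_zero i)
  have hmem : ∀ i, d i ∈ algebraicClosure ℚ E := by
    intro i
    rw [mem_algebraicClosure_iff]
    refine IsIntegral.isAlgebraic ?_
    exact IsIntegral.of_pow hN (by rw [hd i]; exact isIntegral_one)
  refine ⟨∏ i, (X - C (⟨d i, hmem i⟩ : algebraicClosure ℚ E)), ?_⟩
  rw [hh, Pool.Agent.Y800.charpoly_conj, Pool.Agent.Y800.charpoly_diag, Polynomial.map_prod]
  refine Finset.prod_congr rfl fun i _ => ?_
  rw [Polynomial.map_sub, Polynomial.map_X, Polynomial.map_C]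
  rfl

/-- **Jordan's theorem** as a law, over any algebraically closed field of characteristic zero. -/
theorem jordan_E (n : ℕ) : ∃ J : ℕ, 1 ≤ J ∧ ∀ (E : Type) [Field E] [CharZero E] [IsAlgClosed E]
    (G : Type) [Group G] (M : G →* Matrix (Fin n) (Fin n) E),
    (Set.range M).Finite → ∀ x y : G, M (x ^ J * y ^ J) = M (y ^ J * x ^ J) := by
  obtain ⟨J, hJ1, hJ⟩ := jordan_C n
  refine ⟨J, hJ1, fun E _ _ _ G _ M hM x y => ?_⟩
  have : Algebra.IsAlgebraic ℚ (algebraicClosure ℚ E) := algebraicClosure.isAlgebraic ℚ E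
  letI : Algebra (algebraicClosure ℚ E) ℂ :=
    (IsAlgClosed.lift (R := ℚ) (S := algebraicClosure ℚ E) (M := ℂ)).toRingHom.toAlgebra
  obtain ⟨M', h1, h2⟩ := Pool.Agent.X320.DS.transfer (E := algebraicClosure ℚ E) (F := E) (Ω := ℂ) M hM
  have hfin : (Set.range M').Finite := by
    have hkey : ∀ g h : G, M g = M h → M' g = M' h := by
      intro g h hgh
      have e1 : M (g * h⁻¹) = 1 := by
        rw [map_mul, hgh, ← map_mul, mul_inv_cancel, map_one]
      have e2 := h1 _ e1
      have e3 : M' g = M' (g * h⁻¹) * M' h := by rw [← map_mul, inv_mul_cancel_right]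
      rw [e3, e2, one_mul]
    choose s hs using fun A : Set.range M => A.2
    haveI := hM.to_subtype
    refine (Set.finite_range fun A : Set.range M => M' (s A)).subset ?_
    rintro _ ⟨g, rfl⟩
    exact ⟨⟨M g, g, rfl⟩, hkey _ _ (hs ⟨M g, g, rfl⟩)⟩
  have h3 := hJ G M' hfin x y
  set c : G := x ^ J * y ^ J * (y ^ J * x ^ J)⁻¹ with hc
  have hc1 : M' c = 1 := by
    rw [hc, map_mul, h3, ← map_mul, mul_inv_cancel, map_one]
  -- `M c` has finite order
  obtain ⟨N, hN, hcN⟩ : ∃ N : ℕ, 0 < N ∧ M c ^ N = 1 := by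
    have hni : ¬ Function.Injective fun j : ℕ => M (c ^ j) := by
      intro hinj
      haveI := hM.to_subtype
      have : Function.Injective fun j : ℕ => (⟨M (c ^ j), _, rfl⟩ : Set.range M) := by
        intro a b hab
        exact hinj (congrArg Subtype.val hab)
      exact not_injective_infinite_finite _ this
    simp only [Function.Injective, not_forall] at hni
    obtain ⟨a, b, hab, hne⟩ := hni
    have key : ∀ a b : ℕ, a < b → M (c ^ a) = M (c ^ b) → ∃ N : ℕ, 0 < N ∧ M c ^ N = 1 := by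
      intro a b hlt hab
      refine ⟨b - a, Nat.sub_pos_of_lt hlt, ?_⟩
      have e1 : M (c ^ b) = M (c ^ (b - a)) * M (c ^ a) := by
        rw [← map_mul, ← pow_add, Nat.sub_add_cancel hlt.le]
      have e2 : M (c ^ a) * M (c ^ a)⁻¹ = 1 := by rw [← map_mul, mul_inv_cancel, map_one]
      rw [← map_pow]
      calc M (c ^ (b - a)) = M (c ^ (b - a)) * (M (c ^ a) * M (c ^ a)⁻¹) := by rw [e2, mul_one]
        _ = 1 := by rw [← mul_assoc, ← e1, ← hab, e2]
    rcases Nat.lt_or_gt_of_ne hne with h | h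
    · exact key a b h hab
    · exact key b a h hab.symm
  obtain ⟨P, hP⟩ := charpoly_lift (M c) N hN hcN
  have h4 := h2 c P hP
  rw [hc1] at h4
  have hone : ∀ (R : Type) [Field R], (1 : Matrix (Fin n) (Fin n) R).charpoly = (X - 1) ^ n := by
    intro R _
    rw [Matrix.charpoly_one, Fintype.card_fin]
  have h5 : P = (X - 1) ^ n := by
    apply Polynomial.map_injective (algebraMap (algebraicClosure ℚ E) ℂ)
      (algebraMap (algebraicClosure ℚ E) ℂ).injective
    rw [← h4, hone, Polynomial.map_pow, Polynomial.map_sub, Polynomial.map_X, Polynomial.map_one]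
  have h6 : M c = 1 := by
    refine Pool.Agent.Y800.eq_one_of_charpoly (M c) N hN hcN ?_
    rw [hP, h5, hone, Polynomial.map_pow, Polynomial.map_sub, Polynomial.map_X, Polynomial.map_one]
  have h7 : M (x ^ J * y ^ J) = M c * M (y ^ J * x ^ J) := by
    rw [← map_mul, hc, inv_mul_cancel_right]
  rw [h7, h6, one_mul]

end Pool.Agent.X289.PA
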